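import Pool.Agent.Q216.ZD.Base

set_option autoImplicit false

/-!
Job DEG of project ZD (helper216): the tree of a finite set of points of an orbit has the degree
of the orbit.
-/

namespace Pool.Agent.Q237.ZD

open Encodable Pool.Agent.Helper227 Pool.Agent.H548R2.Post Pool.Agent.Q216.ZD
open Nat.Partrec (Code)

/-- a uniformly semi-decidable relation is semi-decidable at each oracle -/
theorem us_si {α : Type} [Primcodable α] {P : R → α → Prop} (h : US P) (X : R) :
    SI X (P X) := by
  obtain ⟨E, hE, mE, eE⟩ := h
  exact ⟨E, hE, mE, fun a => eE X a⟩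

theorem act_le (h1 : S_ACT) {ps : List Code} {L : ℕ} {T : ℕ → R → R} (hA : Acts ps L T)
    {w : List ℕ} (hw : Wd L w) (X : R) : TLe (act T w X) X := by
  rw [tLe_iff_SI]
  have h2 := us_si (h1 ps L T hA) X
  have h3 : SI X fun x : ℕ × Bool => Wd L w ∧ act T w X x.1 = x.2 :=
    h2.comp (f := fun x : ℕ × Bool => (w, x.1, x.2))
      ((Primrec.const w).pair (Primrec.fst.pair Primrec.snd))
  exact h3.of_eq fun x => ⟨fun h => h.2, fun h => ⟨hw, h⟩⟩

theorem sg_prim : Primrec sg := by
  unfold sg
  exact Primrec.option_getD.comp Primrec.decode (Primrec.const [])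

theorem si_ex_list {α β : Type} [Primcodable α] {X : R} {p : β → α → Prop} (W : List β)
    (h : ∀ b ∈ W, SI X (p b)) : SI X fun a => ∃ b ∈ W, p b a := by
  induction W with
  | nil =>
    have h0 : SI X fun _ : α => true = false :=
      SI.of_prim (Primrec.eq.comp (Primrec.const true) (Primrec.const false))
    exact h0.of_eq fun a => by simp
  | cons c W ih =>
    have h2 := (h c (by simp)).or (ih fun b hb => h b (List.mem_cons_of_mem _ hb))
    exact h2.of_eq fun a => by simp

theorem si_all_list {α β : Type} [Primcodable α] {X : R} {p : β → α → Prop} (W : List β)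
    (h : ∀ b ∈ W, SI X (p b)) : SI X fun a => ∀ b ∈ W, p b a := by
  induction W with
  | nil =>
    have h0 : SI X fun _ : α => true = true :=
      SI.of_prim (Primrec.eq.comp (Primrec.const true) (Primrec.const true))
    exact h0.of_eq fun a => by simp
  | cons c W ih =>
    have h2 := (h c (by simp)).and (ih fun b hb => h b (List.mem_cons_of_mem _ hb))
    exact h2.of_eq fun a => by simp

theorem pre_eq_iff {Y : R} {σ : List Bool} :
    pre Y σ.length = σ ↔ ∀ i < σ.length, Y i = σ.getD i false := by
  constructor
  · intro h i hi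
    have := pre_getD Y σ.length i false hi
    rw [h] at this
    exact this.symm
  · intro h
    refine List.ext_getElem (by simp) fun i h5 h6 => ?_
    rw [getElem_pre, h i h6]
    simp [h6]

/-- the tree of a finite set of sets computable in `X` is computable in `X` -/
theorem zt_le {X : R} {A : Set R} (hf : A.Finite) (h : ∀ Y ∈ A, TLe Y X) : TLe (Zt A) X := by
  classical
  rw [tLe_iff_SI]
  obtain ⟨W, hW⟩ : ∃ W : List R, ∀ Y, Y ∈ W ↔ Y ∈ A :=
    ⟨hf.toFinset.toList, fun Y => by simp⟩
  have hq : ∀ Y ∈ W, SI X fun x : ℕ × Bool => Y x.1 = x.2 := fun Y hY =>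
    tLe_iff_SI.1 (h Y ((hW Y).1 hY))
  have hpos : SI X fun x : ℕ × Bool =>
      ∃ Y ∈ W, ∀ i < (sg x.1).length, Y i = (sg x.1).getD i false := by
    refine si_ex_list (p := fun Y (x : ℕ × Bool) =>
      ∀ i < (sg x.1).length, Y i = (sg x.1).getD i false) W fun Y hY => ?_
    refine SI.all_lt (p := fun (x : ℕ × Bool) i => Y i = (sg x.1).getD i false)
      (f := fun x => (sg x.1).length) ?_
      (Primrec.list_length.comp (sg_prim.comp Primrec.fst))
    exact (hq Y hY).comp (f := fun z : (ℕ × Bool) × ℕ => (z.2, (sg z.1.1).getD z.2 false))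
      (Primrec.snd.pair ((Primrec.list_getD false).comp
        (sg_prim.comp (Primrec.fst.comp Primrec.fst)) Primrec.snd))
  have hneg : SI X fun x : ℕ × Bool =>
      ∀ Y ∈ W, ∃ i, i < (sg x.1).length ∧ Y i = !((sg x.1).getD i false) := by
    refine si_all_list (p := fun Y (x : ℕ × Bool) =>
      ∃ i, i < (sg x.1).length ∧ Y i = !((sg x.1).getD i false)) W fun Y hY => ?_
    refine SI.ex (p := fun (x : ℕ × Bool) i =>
      i < (sg x.1).length ∧ Y i = !((sg x.1).getD i false)) (SI.and (SI.of_prim ?_) ?_)
    · exact Primrec.nat_lt.comp Primrec.snd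
        (Primrec.list_length.comp (sg_prim.comp (Primrec.fst.comp Primrec.fst)))
    · exact (hq Y hY).comp (f := fun z : (ℕ × Bool) × ℕ => (z.2, !((sg z.1.1).getD z.2 false)))
        (Primrec.snd.pair (Primrec.not.comp ((Primrec.list_getD false).comp
          (sg_prim.comp (Primrec.fst.comp Primrec.fst)) Primrec.snd)))
  have hb1 : SI X fun x : ℕ × Bool => x.2 = true :=
    SI.of_prim (Primrec.eq.comp Primrec.snd (Primrec.const true))
  have hb2 : SI X fun x : ℕ × Bool => x.2 = false :=
    SI.of_prim (Primrec.eq.comp Primrec.snd (Primrec.const false))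
  refine ((hb1.and hpos).or (hb2.and hneg)).of_eq ?_
  rintro ⟨m, b⟩
  have hz : Zt A m = true ↔ ∃ Y ∈ W, ∀ i < (sg m).length, Y i = (sg m).getD i false := by
    rw [zt_iff]
    constructor
    · rintro ⟨Y, hY, h2⟩
      exact ⟨Y, (hW Y).2 hY, pre_eq_iff.1 h2⟩
    · rintro ⟨Y, hY, h2⟩
      exact ⟨Y, (hW Y).1 hY, pre_eq_iff.2 h2⟩
  have hz2 : Zt A m = false ↔
      ∀ Y ∈ W, ∃ i, i < (sg m).length ∧ Y i = !((sg m).getD i false) := by
    rw [← Bool.not_eq_true, hz]
    push Not
    refine forall_congr' fun Y => forall_congr' fun _ => exists_congr fun i =>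
      and_congr Iff.rfl ?_
    cases Y i <;> cases (sg m).getD i false <;> simp
  cases b
  · simp only [Bool.false_eq_true, false_and, true_and, false_or]
    exact hz2.symm
  · simp only [Bool.true_eq_false, false_and, true_and, or_false]
    exact hz.symm

/-- the leftmost member of `A` -/
theorem exists_left {A : Set R} (hf : A.Finite) (hne : A.Nonempty) :
    ∃ Y ∈ A, ∀ i, Zt A (encode (pre Y i ++ [false])) = !(Y i) := by
  obtain ⟨Y, hY, hmin⟩ := Set.exists_min_image A (fun Y => (toLex Y : Lex (ℕ → Bool))) hf hne
  refine ⟨Y, hY, fun i => ?_⟩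
  have key : Zt A (encode (pre Y i ++ [false])) = true ↔ Y i = false := by
    rw [zt_encode]
    constructor
    · rintro ⟨Z, hZ, h⟩
      rw [pre_eq_iff] at h
      have h1 : ∀ j < i, Z j = Y j := by
        intro j hj
        have := h j (by simp; omega)
        rw [this, List.getD_append _ _ _ _ (by simpa using hj), pre_getD Y i j false hj]
      have h2 : Z i = false := by
        have := h i (by simp)
        rw [this]
        simp [List.getD]
      by_contra hc
      have hc' : Y i = true := by simpa using hc
      refine absurd (hmin Z hZ) (not_le.2 ?_)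
      exact ⟨i, fun j hj => h1 j hj, by
        show Z i < Y i
        rw [h2, hc']
        decide⟩
    · intro h
      refine ⟨Y, hY, ?_⟩
      rw [List.length_append, length_pre]
      show pre Y (i + 1) = _
      rw [pre_succ, h]
  cases h : Y i
  · rw [key.2 h]
    rfl
  · rw [Bool.not_true, ← Bool.not_eq_true, key, h]
    simp

/-- the leftmost member is computable in the tree -/
theorem left_le {A : Set R} {Y : R} (h : ∀ i, Zt A (encode (pre Y i ++ [false])) = !(Y i)) :
    TLe Y (Zt A) := by
  rw [tLe_iff_SI]
  have h1 : SI (Zt A) fun x : ℕ × Bool => ∃ σ : List Bool, (x.1 < σ.length ∧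
      σ.getD x.1 false = x.2) ∧
      ∀ i < σ.length, Zt A (encode (σ.take i ++ [false])) = !(σ.getD i false) := by
    refine SI.ex (p := fun (x : ℕ × Bool) (σ : List Bool) => (x.1 < σ.length ∧
      σ.getD x.1 false = x.2) ∧
      ∀ i < σ.length, Zt A (encode (σ.take i ++ [false])) = !(σ.getD i false))
      (SI.and (SI.of_prim ?_) ?_)
    · refine PrimrecPred.and ?_ ?_
      · exact Primrec.nat_lt.comp (Primrec.fst.comp Primrec.fst)
          (Primrec.list_length.comp Primrec.snd)
      · exact Primrec.eq.comp ((Primrec.list_getD false).comp Primrec.snd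
          (Primrec.fst.comp Primrec.fst)) (Primrec.snd.comp Primrec.fst)
    · refine SI.all_lt (α := (ℕ × Bool) × List Bool)
        (p := fun x i => Zt A (encode (x.2.take i ++ [false])) = !(x.2.getD i false))
        (f := fun x => x.2.length) ?_ (Primrec.list_length.comp Primrec.snd)
      exact SI.query.comp (f := fun z : ((ℕ × Bool) × List Bool) × ℕ =>
        (encode (z.1.2.take z.2 ++ [false]), !(z.1.2.getD z.2 false)))
        ((Primrec.encode.comp (Primrec.list_append.comp
          (Primrec.list_take.comp Primrec.snd (Primrec.snd.comp Primrec.fst))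
          (Primrec.const [false]))).pair
        (Primrec.not.comp ((Primrec.list_getD false).comp
          (Primrec.snd.comp Primrec.fst) Primrec.snd)))
  refine h1.of_eq ?_
  rintro ⟨n, b⟩
  constructor
  · rintro ⟨σ, ⟨h2, h3⟩, h4⟩
    have h5 : ∀ i < σ.length, σ.getD i false = Y i := by
      intro i
      induction i using Nat.strong_induction_on with
      | _ i ih =>
        intro hi
        have h6 : σ.take i = pre Y i := by
          refine List.ext_getElem (by simp; omega) fun j h7 h8 => ?_
          rw [getElem_pre, List.getElem_take]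
          have h9 : j < i := by simpa using h8
          have := ih j h9 (by omega)
          rw [← this]
          simp [show j < σ.length by omega]
        have h7 := h4 i hi
        rw [h6, h i] at h7
        exact (Bool.not_inj h7).symm
    show Y n = b
    rw [← h5 n h2]
    exact h3
  · intro h2
    have h2' : Y n = b := h2
    refine ⟨pre Y (n + 1), ⟨by simp, ?_⟩, fun i hi => ?_⟩
    · show (pre Y (n + 1)).getD n false = b
      rw [pre_getD Y (n + 1) n false (by omega), h2']
    · have hi' : i < n + 1 := by simpa using hi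
      rw [pre_getD Y (n + 1) i false hi', ← h i]
      have : (pre Y (n + 1)).take i = pre Y i := by
        refine List.ext_getElem (by simp; omega) fun j h7 h8 => ?_
        rw [getElem_pre, List.getElem_take, getElem_pre]
      rw [this]

theorem t_DEG (h1 : S_ACT) : S_DEG := by
  intro ps L T hA X A hf hne ho
  refine ⟨?_, ?_⟩
  · obtain ⟨Y, hY, h2⟩ := exists_left hf hne
    obtain ⟨u, hu, hu2⟩ := ho Y hY
    have h3 : TLe X Y := by
      have h4 := act_le h1 hA (wd_iv hA.ev hu) Y
      rw [← hu2, act_iv_act hA hu X] at h4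
      rw [← hu2]
      exact h4
    exact h3.trans (left_le h2)
  · refine zt_le hf fun Y hY => ?_
    obtain ⟨u, hu, rfl⟩ := ho Y hY
    exact act_le h1 hA hu X

end Pool.Agent.Q237.ZD
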